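import Pool.Agent.H.MP_3562eb_co.A

namespace Pool.Agent.Results.MP_0e87b2_co.Counter

open Finset

theorem result (n₀ : ℕ) : ∃ (p : ℕ) (A B : Finset (ZMod p)) (F : Finset (ZMod p × ZMod p)) (d : ℕ),
    p.Prime ∧ n₀ ≤ A.card ∧ B.card = A.card ∧ (A.card : ℝ) < (1 - 1 / 20) * (p : ℝ) / 2 ∧
    F ⊆ A ×ˢ B ∧ (∀ x, (F.filter fun q => q.1 = x).card ≤ d) ∧
    (∀ x, (F.filter fun q => q.2 = x).card ≤ d) ∧
    ∀ B' ⊆ B, ((((A ×ˢ B') \ F).image fun q => q.1 + q.2).card : ℤ) < 2 * A.card - 2 * d - 1 := by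
  obtain ⟨p, A, F, d, h1, h2, h3, h4, h5, h6, h7⟩ := Pool.Agent.H.MP_3562eb_co.ex n₀
  exact ⟨p, A, A, F, d, h1, h2, rfl, h3, h4, h5, h6, fun B b => by have := h7 B b; omega⟩

end Pool.Agent.Results.MP_0e87b2_co.Counter
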